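import Pool.Agent.Lib.MP_c3d375_an.Neg.H5.SyaA

/-!
# SYA: construction of the calculus of `S = χ⁻¹(T)`
-/

open Complex Metric Set Filter Topology ComplexConjugate Polynomial Pool.Agent.Lib.MP_c3d375_an

namespace C3N.H5

section coercive

variable {H : Type} [NormedAddCommGroup H] [InnerProductSpace ℂ H] [CompleteSpace H]

/-- the inverse of a coercive operator -/
theorem exists_inv {X : H →L[ℂ] H} {c : ℝ} (hc : 0 < c)
    (h : ∀ x : H, c * ‖x‖ ^ 2 ≤ (inner ℂ x (X x)).re) :
    ∃ b : H →L[ℂ] H, b * X = 1 ∧ X * b = 1 ∧ ‖b‖ ≤ 1 / c := by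
  obtain ⟨u, hu⟩ := isUnit_of_coercive X c hc h
  refine ⟨↑u⁻¹, by rw [← hu]; exact u.inv_mul, by rw [← hu]; exact u.mul_inv, ?_⟩
  refine ContinuousLinearMap.opNorm_le_bound _ (by positivity) fun y => ?_
  set v : H := (↑u⁻¹ : H →L[ℂ] H) y with hv
  have h1 : X v = y := by
    have : (X * (↑u⁻¹ : H →L[ℂ] H)) y = y := by rw [← hu, u.mul_inv]; rfl
    exact this
  have h2 := h v
  rw [h1] at h2
  have h3 : (inner ℂ v y).re ≤ ‖v‖ * ‖y‖ :=
    (Complex.re_le_norm _).trans (norm_inner_le_norm _ _)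
  by_cases hv0 : ‖v‖ = 0
  · rw [hv0]; positivity
  have hvp : 0 < ‖v‖ := lt_of_le_of_ne (norm_nonneg _) (Ne.symm hv0)
  have h4 : c * ‖v‖ ≤ ‖y‖ := by
    have : (c * ‖v‖) * ‖v‖ ≤ ‖y‖ * ‖v‖ := by nlinarith
    exact le_of_mul_le_mul_right this hvp
  rw [one_div, inv_mul_eq_div, le_div_iff₀ hc, mul_comm]
  exact h4

theorem re_one_sub_pos {a r : ℝ} (ha0 : 0 < a) (hr : r ≤ (1 + a) / (2 * a)) (ha1 : a < 1) {z : ℂ}
    (hz : z ∈ ball (0 : ℂ) r) : (1 - a * z : ℂ) ≠ 0 := by
  intro h
  rw [mem_ball, dist_zero_right] at hz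
  have h1 : (a : ℂ) * z = 1 := (sub_eq_zero.1 h).symm
  have h2 : a * ‖z‖ = 1 := by
    have := congrArg norm h1
    rwa [norm_mul, Complex.norm_real, Real.norm_eq_abs, abs_of_pos ha0, norm_one] at this
  have h3 : a * ‖z‖ < a * ((1 + a) / (2 * a)) := mul_lt_mul_of_pos_left (hz.trans_le hr) ha0
  have h4 : a * ((1 + a) / (2 * a)) = (1 + a) / 2 := by field_simp
  rw [h2, h4] at h3
  linarith

theorem re_chi_le {a e : ℝ} (ha : 1 / 2 ≤ a) (ha1 : a < 1) (he : 0 < e) {w : ℂ}
    (hw : w ∈ C1 a e) : w.re ≤ 1 + e / a / (1 - a) := by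
  obtain ⟨z, hz, rfl⟩ := hw
  rw [mem_closedBall, dist_zero_right] at hz
  have ha0 : 0 < a := by linarith
  have h1a : 0 < 1 - a := by linarith
  have h1 : ‖((e / a : ℝ) : ℂ) / (1 - a * z)‖ ≤ e / a / (1 - a) := by
    rw [norm_div, Complex.norm_real, Real.norm_eq_abs, abs_of_pos (by positivity)]
    have h2 : 1 - a ≤ ‖(1 - a * z : ℂ)‖ := by
      have h3 := norm_sub_norm_le (1 : ℂ) (a * z)
      rw [norm_one, norm_mul, Complex.norm_real, Real.norm_eq_abs, abs_of_pos ha0] at h3
      nlinarith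
    gcongr
  have h2 : z.re ≤ 1 := (Complex.re_le_norm z).trans hz
  have h3 := (Complex.re_le_norm (((e / a : ℝ) : ℂ) / (1 - a * z))).trans h1
  unfold chi
  rw [Complex.add_re]
  linarith

end coercive

theorem sya_st (hGC1 : GC1Statement) (hGIN : GINStatement) : SYAStatement := by
  intro a ha ha1
  obtain ⟨e1, he1, H1⟩ := hGC1 a ha ha1
  obtain ⟨e2, he2, H2⟩ := hGIN a ha ha1
  have ha0 : 0 < a := by linarith
  have h1a : 0 < 1 - a := by linarith
  refine ⟨min e1 (min e2 ((1 - a) ^ 2 / 32)), by positivity, fun e he0 he => ?_⟩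
  have hee1 : e < e1 := he.trans_le (min_le_left _ _)
  have hee2 : e < e2 := he.trans_le ((min_le_right _ _).trans (min_le_left _ _))
  have hee3 : e < (1 - a) ^ 2 / 32 := he.trans_le ((min_le_right _ _).trans (min_le_right _ _))
  obtain ⟨-, -, -, hint⟩ := H1 e he0 hee1
  obtain ⟨g, -, -, hg3, hg4⟩ := H2 e he0 hee2
  intro H _ _ _ T hT hσ r hr1 hr2
  -- bounds for the numerical range
  have hTre : ∀ x : H, (inner ℂ x (T x)).re ≤ (1 + e / a / (1 - a)) * ‖x‖ ^ 2 := by
    intro x
    have h1 := re_inner_ge_of_unit (S := -T) (c := -(1 + e / a / (1 - a))) (fun x hx => by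
      have := re_chi_le ha ha1 he0 (hT x hx)
      rw [neg_apply, inner_neg_right, Complex.neg_re]
      linarith) x
    rw [neg_apply, inner_neg_right, Complex.neg_re] at h1
    linarith
  -- `b = (1 - aT)⁻¹`
  have hinner1 : ∀ x : H, (inner ℂ x x : ℂ).re = ‖x‖ ^ 2 := fun x => by
    rw [inner_self_eq_norm_sq_to_K]; norm_cast
  have hb0c : ∀ x : H, (1 - a) / 2 * ‖x‖ ^ 2 ≤ (inner ℂ x ((1 - (a : ℂ) • T) x)).re := by
    intro x
    have h1 : (inner ℂ x ((1 - (a : ℂ) • T) x)).re = ‖x‖ ^ 2 - a * (inner ℂ x (T x)).re := by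
      rw [sub_apply, ContinuousLinearMap.one_apply, smul_apply, inner_sub_right, inner_smul_right, Complex.sub_re,
        Complex.re_ofReal_mul, hinner1]
    rw [h1]
    have h2 := mul_le_mul_of_nonneg_left (hTre x) ha0.le
    have h3 : a * (1 + e / a / (1 - a)) ≤ 1 - (1 - a) / 2 := by
      have h4 : a * (1 + e / a / (1 - a)) = a + e / (1 - a) := by field_simp
      have h5 : e / (1 - a) ≤ (1 - a) / 2 := by
        rw [div_le_iff₀ h1a]
        nlinarith
      rw [h4]; linarith
    nlinarith [sq_nonneg ‖x‖]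
  obtain ⟨b, hb1, hb2, hbn⟩ := exists_inv (by positivity : 0 < (1 - a) / 2) hb0c
  have hbT : Commute b T := by
    have h1 : Commute b (1 - (a : ℂ) • T) := by rw [commute_iff_eq, hb1, hb2]
    have h2 : Commute b ((a : ℂ) • T) := by
      have := (Commute.one_right b).sub_right h1
      rwa [sub_sub_cancel] at this
    have h3 := h2.smul_right ((a : ℂ)⁻¹)
    rwa [smul_smul, inv_mul_cancel₀ (by exact_mod_cast ha0.ne'), one_smul] at h3
  have hbn' : ‖b‖ ≤ 2 / (1 - a) := hbn.trans_eq (by field_simp)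
  obtain ⟨B, hBT, hBn, hB⟩ := exists_quad (e := e) hbT hbn' he0.le (by
    rw [div_pow, mul_div_assoc', div_le_one (by positivity)]
    nlinarith)
  have hBn' : ‖B‖ ≤ 4 / (1 - a) := hBn.trans_eq (by ring)
  set S : H →L[ℂ] H := T - ((e / a : ℝ) : ℂ) • B with hS
  have haC : (a : ℂ) ≠ 0 := by exact_mod_cast ha0.ne'
  have haS : 1 - (a : ℂ) • S = (1 - (a : ℂ) • T) + (e : ℂ) • B := by
    rw [hS, smul_sub, smul_smul]
    have : (a : ℂ) * ((e / a : ℝ) : ℂ) = e := by
      push_cast
      field_simp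
    rw [this]; abel
  have hTb : Commute B (1 - (a : ℂ) • T) := (Commute.one_right B).sub_right (hBT.smul_right _)
  have hBX : B * (1 - (a : ℂ) • T) = 1 - (e : ℂ) • (B * B) := by
    calc B * (1 - (a : ℂ) • T) = (b - (e : ℂ) • (b * (B * B))) * (1 - (a : ℂ) • T) := by rw [← hB]
      _ = b * (1 - (a : ℂ) • T) - (e : ℂ) • (b * ((B * B) * (1 - (a : ℂ) • T))) := by
          rw [sub_mul, smul_mul_assoc, mul_assoc b]
      _ = b * (1 - (a : ℂ) • T) - (e : ℂ) • (b * (1 - (a : ℂ) • T) * (B * B)) := by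
          rw [(hTb.mul_left hTb).eq, mul_assoc b]
      _ = 1 - (e : ℂ) • (B * B) := by rw [hb1, one_mul]
  have hBS : B * (1 - (a : ℂ) • S) = 1 := by
    rw [haS, mul_add, hBX, mul_smul_comm]
    abel
  have hSB' : Commute B S := by
    rw [hS]
    exact hBT.sub_right ((Commute.refl B).smul_right _)
  have hSB : (1 - (a : ℂ) • S) * B = 1 :=
    (((Commute.one_right B).sub_right (hSB'.smul_right (a : ℂ))).eq).symm.trans hBS
  have hTS : T = S + ((e / a : ℝ) : ℂ) • B := by rw [hS]; abel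
  -- the factorisation
  have hfac : ∀ z : ℂ, (1 - a * z : ℂ) ≠ 0 → algebraMap ℂ (H →L[ℂ] H) (chi a e z) - T =
      (algebraMap ℂ (H →L[ℂ] H) z - S) * (1 + ((e : ℂ) / (1 - a * z)) • B) := by
    intro z hz
    have h1 : (a : ℂ) • (S * B) = B - 1 := by
      have := hSB
      rw [sub_mul, one_mul, smul_mul_assoc] at this
      rw [← this]; abel
    have h2 : S * B = ((a : ℂ)⁻¹) • (B - 1) := by
      rw [← h1, smul_smul, inv_mul_cancel₀ haC, one_smul]
    rw [hTS]
    simp only [Algebra.algebraMap_eq_smul_one, mul_add, mul_one, mul_smul_comm, sub_mul,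
      smul_mul_assoc, one_mul, h2]
    unfold chi
    match_scalars <;> field_simp <;> push_cast <;> ring
  -- the spectrum of `S`
  have hSre : ∀ x : H, (inner ℂ x (S x)).re ≤ (1 + 5 * e / (a * (1 - a))) * ‖x‖ ^ 2 := by
    intro x
    have h1 : (inner ℂ x (S x)).re = (inner ℂ x (T x)).re - e / a * (inner ℂ x (B x)).re := by
      rw [hS, sub_apply, smul_apply, inner_sub_right, inner_smul_right, Complex.sub_re,
        Complex.re_ofReal_mul]
    have h2 : -(4 / (1 - a) * ‖x‖ ^ 2) ≤ (inner ℂ x (B x)).re := by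
      have h3 : ‖(inner ℂ x (B x) : ℂ)‖ ≤ ‖x‖ * (4 / (1 - a) * ‖x‖) :=
        (norm_inner_le_norm _ _).trans (by
          gcongr
          exact (B.le_opNorm x).trans (by gcongr))
      have h4 := (abs_le.1 ((Complex.abs_re_le_norm _).trans h3)).1
      nlinarith
    have h3 := hTre x
    have h4 : (1 + 5 * e / (a * (1 - a))) = (1 + e / a / (1 - a)) + e / a * (4 / (1 - a)) := by
      field_simp
      ring
    rw [h1, h4]
    have h5 : 0 < e / a := by positivity
    nlinarith
  have hm : 1 + 5 * e / (a * (1 - a)) < 1 / a := by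
    have h1 : 1 / a - 1 = (1 - a) ^ 2 / (a * (1 - a)) := by field_simp
    have h2 : 5 * e / (a * (1 - a)) < (1 - a) ^ 2 / (a * (1 - a)) := by
      apply div_lt_div_of_pos_right _ (by positivity)
      nlinarith
    linarith
  have hSspec : spectrum ℂ S ⊆ ball 0 1 := by
    intro z hz
    have hzre : z.re < 1 / a := by
      by_contra hcon
      push Not at hcon
      apply spectrum.mem_iff.1 hz
      refine isUnit_of_coercive _ (1 / a - (1 + 5 * e / (a * (1 - a)))) (by linarith) fun x => ?_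
      have h1 : (inner ℂ x ((algebraMap ℂ (H →L[ℂ] H) z - S) x)).re =
          z.re * ‖x‖ ^ 2 - (inner ℂ x (S x)).re := by
        rw [Algebra.algebraMap_eq_smul_one, sub_apply, smul_apply, ContinuousLinearMap.one_apply, inner_sub_right,
          inner_smul_right, Complex.sub_re, inner_self_eq, mul_comm z, Complex.re_ofReal_mul,
          mul_comm (‖x‖ ^ 2)]
      rw [h1]
      have h2 := hSre x
      nlinarith [sq_nonneg ‖x‖]
    have hz1 : (1 - a * z : ℂ) ≠ 0 := by
      intro h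
      have h1 := congrArg Complex.re h
      rw [Complex.sub_re, Complex.one_re, Complex.re_ofReal_mul, Complex.zero_re] at h1
      have h2 : a * z.re < a * (1 / a) := mul_lt_mul_of_pos_left hzre ha0
      rw [mul_one_div_cancel ha0.ne'] at h2
      linarith
    have h1 : chi a e z ∈ spectrum ℂ T := by
      rw [spectrum.mem_iff] at hz ⊢
      intro hu
      rw [hfac z hz1] at hu
      have hcomm : Commute (algebraMap ℂ (H →L[ℂ] H) z - S) (1 + ((e : ℂ) / (1 - a * z)) • B) := by
        refine Commute.add_right (Commute.one_right _) (Commute.smul_right ?_ _)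
        exact Commute.sub_left (show Commute (algebraMap ℂ (H →L[ℂ] H) z) B from Algebra.commutes z B)
          hSB'.symm
      exact hz (hcomm.isUnit_mul_iff.1 hu).1
    have h2 := hσ h1
    rw [hint] at h2
    obtain ⟨z', hz', hzz⟩ := h2
    have hz'' : ‖z'‖ < 1 := by simpa using hz'
    have h3 := hg4 z' hz''.le
    have h4 : 1 < 1 / a := by rw [lt_div_iff₀ ha0]; linarith
    have h5 := hg3 z' (((Complex.re_le_norm z').trans_lt hz'').trans h4) h3
    have h6 := hg3 z hzre (by rw [← hzz]; exact h3)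
    rw [← hzz, h5] at h6
    rw [← h6]
    exact hz'
  -- bounded calculus
  have hex : ∃ C : ℝ, 0 < C ∧ ∀ (q : ℂ[X]) (M : ℝ), (∀ z ∈ closedBall (0 : ℂ) 1, ‖q.eval z‖ ≤ M) →
      ‖aeval S q‖ ≤ C * M := by
    rcases subsingleton_or_nontrivial H with hs | hn
    · refine ⟨1, one_pos, fun q M hM => ?_⟩
      have h1 : aeval S q = 0 := Subsingleton.elim _ _
      rw [h1, norm_zero, one_mul]
      exact (norm_nonneg _).trans (hM 0 (by simp))
    · obtain ⟨C, hC0, hC⟩ := exists_bound_open isOpen_ball hSspec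
      exact ⟨C, hC0, fun q M hM => hC q M fun z hz => hM z (ball_subset_closedBall hz)⟩
  obtain ⟨C, hC0, hC⟩ := hex
  obtain ⟨Φ, hΦ1, hΦ2⟩ := exists_phi hC0 hr1 hC
  have hK : closedBall (0 : ℂ) 1 ⊆ ball 0 r := closedBall_subset_ball hr1
  set Z : Hol r := hol r (fun z => z) with hZ
  have hZf : ∀ z ∈ ball (0 : ℂ) r, fn Z z = z := fun z hz => fn_hol differentiableOn_id hz
  have hne : ∀ z ∈ ball (0 : ℂ) r, (1 - a * z : ℂ) ≠ 0 := fun z hz => re_one_sub_pos ha0 hr2 ha1 hz
  have hBf : ∀ z ∈ ball (0 : ℂ) r, fn (Bf a r) z = 1 / (1 - a * z) := fun z hz => by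
    refine fn_hol ?_ hz
    exact (differentiableOn_const _).div
      ((differentiableOn_const _).sub ((differentiableOn_const _).mul differentiableOn_id)) hne
  have hΦZ : Φ Z = S := by
    refine calc_unique hC (hΦ2 Z) (g := fun z => z) ⟨fun _ => X, ?_, ?_⟩ fun z hz => hZf z (hK hz)
    · rw [Metric.tendstoUniformlyOn_iff]
      intro ε hε
      filter_upwards with n z _
      simpa using hε
    · simp
  have hΦB : Φ (Bf a r) = B := by
    have h1 : ((1 : Hol r) - (a : ℂ) • Z) * Bf a r = 1 := by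
      refine hol_ext fun z hz => ?_
      rw [fn_mul, fn_sub, fn_smul, fn_one hz, hZf z hz, hBf z hz, mul_one_div_cancel (hne z hz)]
    have h2 := congrArg Φ h1
    rw [map_mul, map_sub, map_smul, map_one, hΦZ] at h2
    calc Φ (Bf a r) = B * (1 - (a : ℂ) • S) * Φ (Bf a r) := by rw [hBS, one_mul]
      _ = B := by rw [mul_assoc, h2, mul_one]
  have hΦT : Φ (hol r (chi a e)) = T := by
    have h1 : hol r (chi a e) = Z + ((e / a : ℝ) : ℂ) • Bf a r := by
      refine hol_ext fun z hz => ?_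
      rw [fn_add, fn_smul, hZf z hz, hBf z hz, fn_hol _ hz]
      · unfold chi
        rw [mul_one_div]
      · unfold chi
        exact differentiableOn_id.add ((differentiableOn_const _).div
          ((differentiableOn_const _).sub ((differentiableOn_const _).mul differentiableOn_id)) hne)
    rw [h1, map_add, map_smul, hΦZ, hΦB, ← hTS]
  refine ⟨⟨Φ, ⟨C, hΦ1⟩, by rw [hΦB]; exact hBn', ?_, ?_⟩, hΦT⟩
  · intro ζ hζ
    have h1 : hol r (fun z => ζ - z) = algebraMap ℂ (Hol r) ζ - Z := by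
      refine hol_ext fun z hz => ?_
      rw [fn_sub, fn_algebraMap ζ hz, hZf z hz, fn_hol _ hz]
      exact (differentiableOn_const _).sub differentiableOn_id
    rw [h1, map_sub, AlgHom.commutes, hΦZ]
    by_contra hcon
    have h2 := hSspec (spectrum.mem_iff.2 hcon)
    rw [mem_ball, dist_zero_right, hζ] at h2
    exact lt_irrefl _ h2
  · intro x hx
    rw [hΦT]
    exact hT x hx

end C3N.H5
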