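import Pool.Agent.Lib.MP_c3d375_an.Neg.Iface

/-!
# SYA, part A: the calculus of an operator with spectrum in the open disc; the quadratic equation
-/

open Complex Metric Set Filter Topology ComplexConjugate Polynomial Pool.Agent.Lib.MP_c3d375_an

namespace C3N.H5

section calculus

variable {H : Type} [NormedAddCommGroup H] [InnerProductSpace ℂ H] [CompleteSpace H]

omit [CompleteSpace H] in
theorem calc_unique {S A B : H →L[ℂ] H} {K : Set ℂ} {f g : ℂ → ℂ} {C : ℝ}
    (hC : ∀ (q : ℂ[X]) (M : ℝ), (∀ z ∈ K, ‖q.eval z‖ ≤ M) → ‖aeval S q‖ ≤ C * M)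
    (h : Calc S K f A) (h' : Calc S K g B) (hfg : EqOn f g K) : A = B := by
  have h1 := Calc.norm_sub_le hC h h' (M := 0) (fun z hz => by rw [hfg hz, sub_self, norm_zero])
  rw [mul_zero] at h1
  exact sub_eq_zero.1 (norm_le_zero_iff.1 h1)

theorem exists_phi {S : H →L[ℂ] H} {C r : ℝ} (hC0 : 0 < C) (hr : 1 < r)
    (hC : ∀ (q : ℂ[X]) (M : ℝ), (∀ z ∈ closedBall (0 : ℂ) 1, ‖q.eval z‖ ≤ M) →
      ‖aeval S q‖ ≤ C * M) :
    ∃ Φ : Hol r →ₐ[ℂ] (H →L[ℂ] H),
      (∀ (φ : Hol r) (M : ℝ), (∀ z ∈ closedBall (0 : ℂ) 1, ‖fn φ z‖ ≤ M) → ‖Φ φ‖ ≤ C * M) ∧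
      (∀ φ : Hol r, Calc S (closedBall 0 1) (fn φ) (Φ φ)) := by
  have hK : closedBall (0 : ℂ) 1 ⊆ ball 0 r := closedBall_subset_ball hr
  have hex : ∀ φ : Hol r, ∃ A, Calc S (closedBall 0 1) (fn φ) A := by
    intro φ
    obtain ⟨p, hp⟩ := exists_poly_approx one_pos hr (fn_differentiableOn φ)
    obtain ⟨A, hA⟩ := exists_aeval_lim hC0 hC hp
    exact ⟨A, p, hp, hA⟩
  choose A hA using hex
  refine ⟨{ toFun := A, map_one' := ?_, map_mul' := ?_, map_zero' := ?_, map_add' := ?_,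
            commutes' := ?_ }, ?_, ?_⟩
  · refine (calc_unique hC (hA 1) (Calc.const 1) fun z hz => ?_).trans (one_smul ℂ _)
    rw [fn_one (hK hz)]
  · intro φ ψ
    refine calc_unique hC (hA (φ * ψ)) ((hA φ).mul (isCompact_closedBall 0 1) (hA ψ)) fun z _ => ?_
    rw [fn_mul]
  · refine (calc_unique hC (hA 0) (Calc.const 0) fun z hz => ?_).trans (zero_smul ℂ _)
    rw [fn_apply _ (hK hz)]; rfl
  · intro φ ψ
    refine calc_unique hC (hA (φ + ψ)) ((hA φ).add (hA ψ)) fun z _ => ?_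
    rw [fn_add]
  · intro c
    refine (calc_unique hC (hA (algebraMap ℂ (Hol r) c)) (Calc.const c) fun z hz => ?_).trans ?_
    · rw [fn_algebraMap c (hK hz)]
    · rw [Algebra.algebraMap_eq_smul_one]
  · intro φ M hM
    have h1 := Calc.norm_sub_le hC (hA φ) (Calc.const (T := S) (U := closedBall (0 : ℂ) 1) 0) (M := M)
      (fun z hz => by rw [sub_zero]; exact hM z hz)
    rw [zero_smul, sub_zero] at h1
    exact h1
  · intro φ
    exact hA φ

end calculus

section quad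

variable {𝔸 : Type*} [NormedRing 𝔸] [NormedAlgebra ℂ 𝔸] [CompleteSpace 𝔸]

/-- the equation `B = b - e b B²` has a small solution in the commutant of `T` -/
theorem exists_quad {b T : 𝔸} {β e : ℝ} (hbT : Commute b T) (hβ : ‖b‖ ≤ β) (he : 0 ≤ e)
    (heβ : 8 * e * β ^ 2 ≤ 1) :
    ∃ B : 𝔸, Commute B T ∧ ‖B‖ ≤ 2 * β ∧ B = b - (e : ℂ) • (b * (B * B)) := by
  have hβ0 : 0 ≤ β := (norm_nonneg _).trans hβ
  set s : Set 𝔸 := {X | Commute X T ∧ ‖X‖ ≤ 2 * β} with hs
  set f : 𝔸 → 𝔸 := fun X => b - (e : ℂ) • (b * (X * X)) with hf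
  have hen : ‖(e : ℂ)‖ = e := by rw [Complex.norm_real, Real.norm_eq_abs, abs_of_nonneg he]
  have hsc : IsComplete s := by
    have h1 : IsClosed {X : 𝔸 | Commute X T} := by
      have : {X : 𝔸 | Commute X T} = {X | X * T = T * X} := by
        ext X; simp [commute_iff_eq]
      rw [this]
      exact isClosed_eq (by fun_prop) (by fun_prop)
    have h2 : IsClosed {X : 𝔸 | ‖X‖ ≤ 2 * β} := isClosed_le (by fun_prop) (by fun_prop)
    exact (h1.inter h2).isComplete
  have hmaps : MapsTo f s s := by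
    intro X hX
    refine ⟨?_, ?_⟩
    · have h1 : Commute ((e : ℂ) • (b * (X * X))) T :=
        (hbT.mul_left (hX.1.mul_left hX.1)).smul_left _
      exact hbT.sub_left h1
    · have h1 : ‖(e : ℂ) • (b * (X * X))‖ ≤ e * (β * ((2 * β) * (2 * β))) := by
        rw [norm_smul, hen]
        gcongr
        refine (norm_mul_le _ _).trans ?_
        gcongr
        refine (norm_mul_le _ _).trans ?_
        gcongr
        · exact hX.2
        · exact hX.2
      calc ‖f X‖ ≤ ‖b‖ + ‖(e : ℂ) • (b * (X * X))‖ := norm_sub_le _ _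
        _ ≤ β + e * (β * ((2 * β) * (2 * β))) := by gcongr
        _ ≤ 2 * β := by nlinarith
  have hlip : ∀ X ∈ s, ∀ Y ∈ s, dist (f X) (f Y) ≤ (1 / 2 : ℝ) * dist X Y := by
    intro X hX Y hY
    rw [dist_eq_norm, dist_eq_norm]
    have e1 : f X - f Y = -((e : ℂ) • (b * (X * (X - Y) + (X - Y) * Y))) := by
      simp only [hf]
      rw [sub_sub_sub_cancel_left, ← smul_sub, ← mul_sub, ← smul_neg, ← mul_neg]
      congr 2
      noncomm_ring
    rw [e1, norm_neg, norm_smul, hen]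
    have h2 : ‖b * (X * (X - Y) + (X - Y) * Y)‖ ≤ β * (2 * β * ‖X - Y‖ + ‖X - Y‖ * (2 * β)) := by
      refine (norm_mul_le _ _).trans ?_
      gcongr
      refine (norm_add_le _ _).trans ?_
      refine add_le_add ((norm_mul_le _ _).trans ?_) ((norm_mul_le _ _).trans ?_)
      · gcongr
        exact hX.2
      · gcongr
        exact hY.2
    calc e * ‖b * (X * (X - Y) + (X - Y) * Y)‖
        ≤ e * (β * (2 * β * ‖X - Y‖ + ‖X - Y‖ * (2 * β))) := by gcongr
      _ = (4 * e * β ^ 2) * ‖X - Y‖ := by ring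
      _ ≤ 1 / 2 * ‖X - Y‖ := by
          gcongr
          linarith
  have hcon : ContractingWith (1 / 2 : NNReal) (hmaps.restrict f s s) := by
    refine ⟨by norm_num, LipschitzWith.of_dist_le_mul fun X Y => ?_⟩
    have := hlip X.1 X.2 Y.1 Y.2
    simpa [Subtype.dist_eq] using this
  have hb : b ∈ s := ⟨hbT, by linarith⟩
  obtain ⟨B, hB, hfix, -⟩ := hcon.exists_fixedPoint' hsc hmaps hb (edist_ne_top _ _)
  exact ⟨B, hB.1, hB.2, hfix.symm⟩

end quad

end C3N.H5
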